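import Pool.Agent.H76.SW.CT

/-! Evaluation of a coded automaton on a coded graph. -/

namespace Pool.Agent.H19.SW

open Pool.Agent.H76.SW Relation

theorem pstep_of_step {Λ : Type} {st n : ℕ} (nm : Λ → ℕ) (M : NFA (Λ × Bool) (Fin st)) (x : AutC)
    (hx : CodesAut nm M x) (F : Fin n → Λ → Fin n → Prop) (E : GrC)
    (hE : ∀ (u : Fin n) (l : Λ) (v : Fin n), (((u : ℕ), nm l), (v : ℕ)) ∈ E ↔ F u l v)
    (u v : Fin n) (l : Λ × Bool) (s s' : Fin st) (h : Step F u l v) (hs : s' ∈ M.step s l) :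
    PStep E x.2 ((u : ℕ), (s : ℕ)) ((v : ℕ), (s' : ℕ)) := by
  refine ⟨nm l.1, l.2, (hx.trans _).2 ⟨s, l, s', hs, rfl⟩, ?_⟩
  unfold Step at h
  by_cases hb : l.2 = true
  · rw [if_pos hb] at h
    exact Or.inl ⟨hb, (hE _ _ _).2 h⟩
  · rw [if_neg hb] at h
    exact Or.inr ⟨by simpa using hb, (hE _ _ _).2 h⟩

theorem rtg_of_path {Λ : Type} {st n : ℕ} (nm : Λ → ℕ) (M : NFA (Λ × Bool) (Fin st)) (x : AutC)
    (hx : CodesAut nm M x) (F : Fin n → Λ → Fin n → Prop) (E : GrC)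
    (hE : ∀ (u : Fin n) (l : Λ) (v : Fin n), (((u : ℕ), nm l), (v : ℕ)) ∈ E ↔ F u l v)
    (u v : Fin n) (w : List (Λ × Bool)) (hp : Path F u w v) :
    ∀ s s' : Fin st, s' ∈ M.evalFrom {s} w →
      ReflTransGen (PStep E x.2) ((u : ℕ), (s : ℕ)) ((v : ℕ), (s' : ℕ)) := by
  induction hp with
  | nil u =>
    intro s s' h
    rw [NFA.evalFrom_nil, Set.mem_singleton_iff] at h
    subst h
    exact ReflTransGen.refl
  | cons u v t l w h _ ih =>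
    intro s s' hs
    rw [NFA.evalFrom_cons, NFA.stepSet_singleton, NFA.mem_evalFrom_iff_exists] at hs
    obtain ⟨s1, h1, h2⟩ := hs
    exact ReflTransGen.head (pstep_of_step nm M x hx F E hE u v l s s1 h h1) (ih s1 s' h2)

theorem path_of_rtg {Λ : Type} {st n : ℕ} (nm : Λ → ℕ) (M : NFA (Λ × Bool) (Fin st)) (x : AutC)
    (hx : CodesAut nm M x) (F : Fin n → Λ → Fin n → Prop) (E : GrC)
    (hE : ∀ (u : Fin n) (l : Λ) (v : Fin n), (((u : ℕ), nm l), (v : ℕ)) ∈ E ↔ F u l v)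
    (hb : ∀ e ∈ E, e.1.1 < n ∧ e.2 < n) (v : Fin n) (s' : Fin st) (p : ℕ × ℕ)
    (h : ReflTransGen (PStep E x.2) p ((v : ℕ), (s' : ℕ))) :
    ∀ (u : Fin n) (s : Fin st), p = ((u : ℕ), (s : ℕ)) →
      ∃ w, s' ∈ M.evalFrom {s} w ∧ Path F u w v := by
  induction h using ReflTransGen.head_induction_on with
  | refl =>
    intro u s h
    rw [Prod.mk.injEq] at h
    have h1 : v = u := Fin.ext h.1
    have h2 : s' = s := Fin.ext h.2
    subst h1 h2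
    exact ⟨[], by rw [NFA.evalFrom_nil]; exact Set.mem_singleton _, Path.nil _⟩
  | @head p c hpc _ ih =>
    intro u s hp
    subst hp
    obtain ⟨l, b, ht, hor⟩ := hpc
    obtain ⟨s0, l0, s1, hs, he⟩ := (hx.trans _).1 ht
    simp only [Prod.mk.injEq] at he
    obtain ⟨⟨h1, h2, h3⟩, h4⟩ := he
    have h1 : s = s0 := Fin.ext h1
    subst h1 h2 h3
    obtain ⟨c1, c2⟩ := c
    simp only at h4 hor
    subst h4
    rcases hor with ⟨hbt, hin⟩ | ⟨hbf, hin⟩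
    · have hc : c1 < n := (hb _ hin).2
      obtain ⟨w, hw, hp⟩ := ih ⟨c1, hc⟩ s1 rfl
      refine ⟨l0 :: w, ?_, Path.cons u ⟨c1, hc⟩ v l0 w ?_ hp⟩
      · rw [NFA.evalFrom_cons, NFA.stepSet_singleton, NFA.mem_evalFrom_iff_exists]
        exact ⟨s1, hs, hw⟩
      · unfold Step
        rw [if_pos hbt]
        exact (hE u l0.1 ⟨c1, hc⟩).1 hin
    · have hc : c1 < n := (hb _ hin).1
      obtain ⟨w, hw, hp⟩ := ih ⟨c1, hc⟩ s1 rfl
      refine ⟨l0 :: w, ?_, Path.cons u ⟨c1, hc⟩ v l0 w ?_ hp⟩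
      · rw [NFA.evalFrom_cons, NFA.stepSet_singleton, NFA.mem_evalFrom_iff_exists]
        exact ⟨s1, hs, hw⟩
      · unfold Step
        rw [if_neg (by rw [hbf]; simp)]
        exact (hE ⟨c1, hc⟩ l0.1 u).1 hin

theorem pf_CAI (h1 : V_RI) : V_AI := by
  intro Λ st n nm M x hx F E hE hb u v
  unfold AtSat
  constructor
  · rintro ⟨s, hs, s', hs', hr⟩
    obtain ⟨s0, hs0, rfl⟩ := (hx.start _).1 hs
    obtain ⟨s1, hs1, rfl⟩ := (hx.accept _).1 hs'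
    have := (h1 _ _ _ _).1 hr
    obtain ⟨w, hw, hp⟩ := path_of_rtg nm M x hx F E hE hb v s1 _ this u s0 rfl
    refine ⟨w, NFA.mem_accepts.2 ⟨s1, hs1, ?_⟩, hp⟩
    rw [NFA.mem_evalFrom_iff_exists]
    exact ⟨s0, hs0, hw⟩
  · rintro ⟨w, hw, hp⟩
    obtain ⟨s1, hs1, hw⟩ := NFA.mem_accepts.1 hw
    rw [NFA.mem_evalFrom_iff_exists] at hw
    obtain ⟨s0, hs0, hw⟩ := hw
    exact ⟨s0, (hx.start _).2 ⟨s0, hs0, rfl⟩, s1, (hx.accept _).2 ⟨s1, hs1, rfl⟩,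
      (h1 _ _ _ _).2 (rtg_of_path nm M x hx F E hE u v w hp s0 s1 hw)⟩

end Pool.Agent.H19.SW
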