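import Pool.Agent.H76.SW.CT

/-! Codes of finite graph databases. -/

namespace Pool.Agent.H19.SW

open Pool.Agent.H76.SW

theorem mem_egU (n a : ℕ) (x : (ℕ × ℕ) × ℕ) :
    x ∈ egU n a ↔ x.1.1 < n ∧ x.1.2 < a ∧ x.2 < n := by
  obtain ⟨⟨u, l⟩, v⟩ := x
  simp only [egU, List.mem_flatMap, List.mem_map, List.mem_range]
  constructor
  · rintro ⟨u', hu, l', hl, v', hv, h⟩
    simp only [Prod.mk.injEq] at h
    obtain ⟨⟨rfl, rfl⟩, rfl⟩ := h
    exact ⟨hu, hl, hv⟩
  · rintro ⟨hu, hl, hv⟩
    exact ⟨u, hu, l, hl, v, hv, rfl⟩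

theorem pf_CGC (h1 : V_LM) (h2 : U_q6_mono) : V_GC := by
  classical
  constructor
  · intro a n E hE x hx
    have := ((h1 _ _ _).1 hE).2 x hx
    exact (mem_egU n a x).1 this
  · intro a V _ E
    let e : V ≃ Fin (Fintype.card V) := Fintype.equivFin V
    let E' : GrC := (egU (Fintype.card V) a).filter
      (fun x => decide (∃ u l v, E u l v ∧ x = (((e u : ℕ), (l : ℕ)), (e v : ℕ))))
    have hE' : ∀ u l v, toRel (Fintype.card V) a E' (e u) l (e v) ↔ E u l v := by
      intro u l v
      unfold toRel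
      simp only [E', List.mem_filter, mem_egU, decide_eq_true_eq]
      constructor
      · rintro ⟨-, u', l', v', h, h'⟩
        simp only [Prod.mk.injEq] at h'
        obtain ⟨⟨h3, h4⟩, h5⟩ := h'
        have hu : u = u' := e.injective (Fin.ext h3)
        have hl : l = l' := Fin.ext h4
        have hv : v = v' := e.injective (Fin.ext h5)
        subst hu hl hv
        exact h
      · intro h
        exact ⟨⟨(e u).2, l.2, (e v).2⟩, u, l, v, h, rfl⟩
    refine ⟨E', ?_, e, ?_⟩
    · unfold grU
      rw [h1]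
      refine ⟨List.length_filter_le _ _, ?_⟩
      intro x hx
      exact (List.mem_filter.1 hx).1
    · intro r Γ z
      have m1 := (h2 E (toRel (Fintype.card V) a E') e (fun u l v h => (hE' u l v).2 h)).2
      have m2 := (h2 (toRel (Fintype.card V) a E') E e.symm (fun u l v h => by
        apply (hE' _ _ _).1
        rw [e.apply_symm_apply, e.apply_symm_apply]
        exact h)).2
      constructor
      · rintro ⟨t, ht, hs⟩
        exact ⟨t, ht, m1 r t z hs⟩
      · rintro ⟨t, ht, hs⟩
        refine ⟨t, ht, ?_⟩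
        have := m2 r t _ hs
        simpa using this

end Pool.Agent.H19.SW
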