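import Pool.Agent.H76.SW.CT

/-! Membership in the list of all lists of bounded length. -/

namespace Pool.Agent.H19.SW

open Pool.Agent.H76.SW

theorem pf_CLM : V_LM := by
  intro α L n
  induction n with
  | zero =>
    intro l
    cases l with
    | nil => simp [lists]
    | cons x l => simp [lists]
  | succ n ih =>
    intro l
    cases l with
    | nil => simp [lists]
    | cons x l =>
      have h : (x :: l) ∈ lists L (n + 1) ↔ x ∈ L ∧ l ∈ lists L n := by
        simp only [lists, List.mem_cons, List.mem_flatMap, List.mem_map]
        constructor
        · rintro (h | ⟨y, hy, l', hl', h⟩)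
          · exact absurd h (by simp)
          · rw [List.cons.injEq] at h
            obtain ⟨rfl, rfl⟩ := h
            exact ⟨hy, hl'⟩
        · rintro ⟨h1, h2⟩
          exact Or.inr ⟨x, h1, l, h2, rfl⟩
      rw [h, ih l]
      constructor
      · rintro ⟨h1, h2, h3⟩
        refine ⟨by simpa using h2, ?_⟩
        intro y hy
        rcases List.mem_cons.1 hy with rfl | hy
        · exact h1
        · exact h3 y hy
      · rintro ⟨h1, h2⟩
        exact ⟨h2 x List.mem_cons_self, by simpa using h1,
          fun y hy => h2 y (List.mem_cons_of_mem _ hy)⟩

end Pool.Agent.H19.SW
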