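import Pool.Agent.H19.SW.CLM

/-! From queries to programs. -/

namespace Pool.Agent.H19.SW

open Pool.Agent.H76.SW

theorem wf_append (a k : ℕ) (o : ℕ) (l1 l2 : List UqC)
    (h1 : ∀ i < l1.length, WfUq (a + o + i) 2 k (l1.getD i []))
    (h2 : ∀ i < l2.length, WfUq (a + (o + l1.length) + i) 2 k (l2.getD i [])) :
    ∀ i < (l1 ++ l2).length, WfUq (a + o + i) 2 k ((l1 ++ l2).getD i []) := by
  intro i hi
  rw [List.length_append] at hi
  by_cases h : i < l1.length
  · rw [List.getD_append _ _ _ _ h]
    exact h1 i h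
  · rw [List.getD_append_right _ _ _ _ (by omega)]
    have := h2 (i - l1.length) (by omega)
    rw [show a + (o + l1.length) + (i - l1.length) = a + o + i by omega] at this
    exact this

theorem wfcq_mono {L L' r k : ℕ} (h : L ≤ L') {q : CqC} (hq : WfCq L r k q) : WfCq L' r k q := by
  obtain ⟨h1, h2, h3, h4⟩ := hq
  refine ⟨h1, h2, ?_, h4⟩
  intro t ht
  obtain ⟨h5, h6, h7, h8, h9⟩ := h3 t ht
  refine ⟨h5, h6, h7, h8, ?_⟩
  intro y hy
  obtain ⟨a1, a2, a3⟩ := h9 y hy
  exact ⟨a1, lt_of_lt_of_le a2 h, a3⟩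

/-- Flattening of a family of binary Regular Queries. -/
theorem family (h1 : V_FL) (h3 : V_PA) (a k M : ℕ) (hk : 1 ≤ k) :
    ∀ (c : ℕ) (sub : Fin c → RQ (Fin a)) (_ : ∀ j, (sub j).Width k) (_ : ∀ j, (sub j).Simple)
      (pre : List UqC) (_ : a + pre.length + (∑ j, (sub j).size) + 2 ≤ M),
      ∃ new : List UqC, new.length ≤ ∑ j, (sub j).size ∧ (∀ Q ∈ new, Q ∈ uqU M) ∧
        (∀ i < new.length, WfUq (a + pre.length + i) 2 k (new.getD i [])) ∧
        (∀ Q ∈ new, SiUq a Q) ∧
        ∃ σ : Fin c → ℕ, (∀ j, a ≤ σ j ∧ σ j < a + pre.length + new.length) ∧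
          ∀ (n : ℕ) (E : GrC), GrOK n a E → ∀ (more : List UqC) (u : Fin n) (j : Fin c)
            (v : Fin n), (((u : ℕ), σ j), (v : ℕ)) ∈ progE n a E (pre ++ new ++ more) ↔
              (sub j).Sat (toRel n a E) u v := by
  intro c
  induction c with
  | zero =>
    intro sub _ _ pre _
    refine ⟨[], by simp, by simp, by simp, by simp, fun j => j.elim0, fun j => j.elim0, ?_⟩
    intro n E _ more u j
    exact j.elim0
  | succ c ih =>
    intro sub hw hs pre hM
    rw [Fin.sum_univ_castSucc] at hM
    obtain ⟨new1, b1, b2, b3, b4, σ, b5, b6⟩ := ih (fun j => sub j.castSucc)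
      (fun j => hw _) (fun j => hs _) pre (by omega)
    obtain ⟨new2, c0, c1, c2, c3, c4, c5⟩ := h1 a k M hk (sub (Fin.last c)) (hw _) (hs _)
      (pre ++ new1) (by rw [List.length_append]; omega)
    obtain ⟨τ, hτl, hτc⟩ : ∃ τ : Fin (c + 1) → ℕ,
        τ (Fin.last c) = a + (pre ++ new1).length + new2.length - 1 ∧
          ∀ j : Fin c, τ j.castSucc = σ j :=
      ⟨Fin.snoc (α := fun _ => ℕ) σ (a + (pre ++ new1).length + new2.length - 1),
        Fin.snoc_last _ _, fun j => Fin.snoc_castSucc _ _ _⟩
    refine ⟨new1 ++ new2, ?_, ?_, ?_, ?_, τ, ?_, ?_⟩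
    · rw [List.length_append, Fin.sum_univ_castSucc]
      omega
    · intro Q hQ
      rcases List.mem_append.1 hQ with hQ | hQ
      · exact b2 Q hQ
      · exact c2 Q hQ
    · apply wf_append a k pre.length new1 new2 b3
      intro i hi
      have := c3 i hi
      rw [List.length_append] at this
      exact this
    · intro Q hQ
      rcases List.mem_append.1 hQ with hQ | hQ
      · exact b4 Q hQ
      · exact c4 Q hQ
    · intro j
      refine Fin.lastCases ?_ ?_ j
      · rw [hτl, List.length_append, List.length_append]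
        omega
      · intro j
        rw [hτc, List.length_append]
        have := b5 j
        omega
    · intro n E hE more u j v
      refine Fin.lastCases ?_ ?_ j
      · rw [hτl, ← c5 n E hE u v]
        have e1 : pre ++ (new1 ++ new2) ++ more = (pre ++ new1 ++ new2) ++ more := by
          simp only [List.append_assoc]
        rw [e1]
        apply h3
        simp only [List.length_append]
        omega
      · intro j
        rw [hτc, ← b6 n E hE (new2 ++ more) u j v]
        have e1 : pre ++ (new1 ++ new2) ++ more = pre ++ new1 ++ (new2 ++ more) := by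
          simp only [List.append_assoc]
        rw [e1]

/-- One conjunctive query. -/
theorem one (h1 : V_FL) (h2 : V_BC) (h3 : V_PA) (h4 : V_PB) (a r k M : ℕ) (hk : 1 ≤ k)
    (t : CRQ (Fin a) r) (hw : t.Width k) (hs : t.Simple) (pre : List UqC)
    (hM : a + pre.length + t.size + r + 2 ≤ M) :
    ∃ new : List UqC, ∃ q : CqC, new.length ≤ t.size ∧ (∀ Q ∈ new, Q ∈ uqU M) ∧
      (∀ i < new.length, WfUq (a + pre.length + i) 2 k (new.getD i [])) ∧
      (∀ Q ∈ new, SiUq a Q) ∧ q ∈ cqU M ∧ WfCq (a + pre.length + new.length) r k q ∧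
      (∀ y ∈ q.2, SiAut a y.2) ∧
      ∀ (n : ℕ) (E : GrC), GrOK n a E → ∀ (more : List UqC) (z : Fin r → Fin n),
        CqSat n (progE n a E (pre ++ new ++ more)) q (List.ofFn fun i => (z i : ℕ)) ↔
          t.Sat (toRel n a E) z := by
  unfold CRQ.size at hM
  obtain ⟨new, b1, b2, b3, b4, σ, b5, b6⟩ := family h1 h3 a k M hk t.c t.sub hw.2 hs.2 pre
    (by omega)
  obtain ⟨q, q1, q2, q3, q4⟩ := h2 a t.c k (a + pre.length + new.length) M t.b hs.1 hw.1 σ b5
    (by omega) (by omega) (by omega) r (by omega) t.out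
  refine ⟨new, q, ?_, b2, b3, b4, q1, q2, q3, ?_⟩
  · unfold CRQ.size
    omega
  · intro n E hE more z
    rw [q4 n (progE n a E (pre ++ new ++ more)) (toRel n a E)
      (fun j => (t.sub j).Sat (toRel n a E)) ?_ ?_ ?_ z]
    · rfl
    · intro u l v
      have := h3 n a E [] (pre ++ new ++ more) (((u : ℕ), (l : ℕ)), (v : ℕ)) (by simp)
      rw [List.nil_append] at this
      exact this
    · intro u j v
      exact b6 n E hE more u j v
    · intro e he
      have := h4 n a E hE _ e he
      exact ⟨this.1, this.2.1⟩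

theorem size_pos {A : Type} {r : ℕ} (t : CRQ A r) : 1 ≤ t.size := by
  unfold CRQ.size
  omega

theorem length_le_size {A : Type} {r : ℕ} (Δ : Query A r) : Δ.length ≤ Δ.size := by
  induction Δ with
  | nil => simp [Query.size]
  | cons t Δ ih =>
    unfold Query.size at ih ⊢
    rw [List.map_cons, List.sum_cons, List.length_cons]
    have := size_pos t
    omega

theorem all (h1 : V_FL) (h2 : V_BC) (h3 : V_PA) (h4 : V_PB) (a r k M : ℕ) (hk : 1 ≤ k) :
    ∀ (Δ : Query (Fin a) r) (_ : Δ.Width k) (_ : Δ.Simple) (pre : List UqC)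
      (_ : a + pre.length + Δ.size + r + 2 ≤ M),
      ∃ new : List UqC, ∃ Q : UqC, new.length ≤ Δ.size ∧ Q.length = Δ.length ∧
        (∀ Q ∈ new, Q ∈ uqU M) ∧
        (∀ i < new.length, WfUq (a + pre.length + i) 2 k (new.getD i [])) ∧
        (∀ Q ∈ new, SiUq a Q) ∧ (∀ q ∈ Q, q ∈ cqU M) ∧
        (∀ q ∈ Q, WfCq (a + pre.length + new.length) r k q) ∧
        (∀ q ∈ Q, ∀ y ∈ q.2, SiAut a y.2) ∧
        ∀ (n : ℕ) (E : GrC), GrOK n a E → ∀ (more : List UqC) (z : Fin r → Fin n),
          UqSat n (progE n a E (pre ++ new ++ more)) Q (List.ofFn fun i => (z i : ℕ)) ↔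
            Δ.Sat (toRel n a E) z := by
  intro Δ
  induction Δ with
  | nil =>
    intro _ _ pre _
    refine ⟨[], [], by simp, by simp, by simp, by simp, by simp, by simp, by simp, by simp, ?_⟩
    intro n E _ more z
    simp [UqSat, Query.Sat]
  | cons t Δ ih =>
    intro hw hs pre hM
    have hsz : Query.size (t :: Δ) = t.size + Query.size Δ := by
      simp [Query.size]
    rw [hsz] at hM
    obtain ⟨new1, q, b1, b2, b3, b4, b5, b6, b7, b8⟩ := one h1 h2 h3 h4 a r k M hk t
      (hw t List.mem_cons_self) (hs t List.mem_cons_self) pre (by omega)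
    obtain ⟨new2, Q, c1, c0, c2, c3, c4, c5, c6, c7, c8⟩ := ih
      (fun t' ht' => hw t' (List.mem_cons_of_mem _ ht'))
      (fun t' ht' => hs t' (List.mem_cons_of_mem _ ht')) (pre ++ new1)
      (by rw [List.length_append]; omega)
    refine ⟨new1 ++ new2, q :: Q, ?_, ?_, ?_, ?_, ?_, ?_, ?_, ?_, ?_⟩
    · rw [hsz, List.length_append]
      omega
    · simp [c0]
    · intro Q' hQ
      rcases List.mem_append.1 hQ with hQ | hQ
      · exact b2 Q' hQ
      · exact c2 Q' hQ
    · apply wf_append a k pre.length new1 new2 b3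
      intro i hi
      have := c3 i hi
      rw [List.length_append] at this
      exact this
    · intro Q' hQ
      rcases List.mem_append.1 hQ with hQ | hQ
      · exact b4 Q' hQ
      · exact c4 Q' hQ
    · intro q' hq'
      rcases List.mem_cons.1 hq' with rfl | hq'
      · exact b5
      · exact c5 q' hq'
    · intro q' hq'
      rcases List.mem_cons.1 hq' with rfl | hq'
      · exact wfcq_mono (by rw [List.length_append]; omega) b6
      · have := c6 q' hq'
        rw [List.length_append] at this ⊢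
        exact wfcq_mono (by omega) this
    · intro q' hq'
      rcases List.mem_cons.1 hq' with rfl | hq'
      · exact b7
      · exact c7 q' hq'
    · intro n E hE more z
      have e1 : pre ++ (new1 ++ new2) ++ more = pre ++ new1 ++ (new2 ++ more) := by
        simp only [List.append_assoc]
      have e2 : pre ++ (new1 ++ new2) ++ more = (pre ++ new1) ++ new2 ++ more := by
        simp only [List.append_assoc]
      have s1 := b8 n E hE (new2 ++ more) z
      have s2 := c8 n E hE more z
      rw [← e1] at s1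
      rw [← e2] at s2
      have : UqSat n (progE n a E (pre ++ (new1 ++ new2) ++ more)) (q :: Q)
          (List.ofFn fun i => (z i : ℕ)) ↔
          CqSat n (progE n a E (pre ++ (new1 ++ new2) ++ more)) q
            (List.ofFn fun i => (z i : ℕ)) ∨
          UqSat n (progE n a E (pre ++ (new1 ++ new2) ++ more)) Q
            (List.ofFn fun i => (z i : ℕ)) := by
        simp [UqSat]
      rw [this, s1, s2]
      simp [Query.Sat]

theorem pf_CQP (h1 : V_FL) (h2 : V_BC) (h3 : V_PA) (h4 : V_PB) : V_QP := by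
  intro a r k hk Δ hw hs M hM
  obtain ⟨new, Q, b1, b0, b2, b3, b4, b5, b6, b7, b8⟩ := all h1 h2 h3 h4 a r k M hk Δ hw hs []
    (by simpa using hM)
  have hlen := length_le_size Δ
  refine ⟨(new, Q), ?_, ⟨?_, ?_⟩, ⟨b4, b7⟩, ?_⟩
  · unfold prU
    rw [List.mem_flatMap]
    refine ⟨new, (pf_CLM _ _ _).2 ⟨by omega, b2⟩, List.mem_map.2 ⟨Q, ?_, rfl⟩⟩
    exact (pf_CLM _ _ _).2 ⟨by omega, b5⟩
  · intro i hi
    have := b3 i (List.mem_range.1 hi)
    simpa using this
  · intro q hq
    have := b6 q hq
    simpa using this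
  · intro n E hE z
    have := b8 n E hE [] z
    rw [List.nil_append, List.append_nil] at this
    exact this

end Pool.Agent.H19.SW
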